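import Mathlib

/-! Two factorizations of one subgraph-closed class:
`P1 · P1 · P1 = P1 · P2` with `P1` = edgeless or at most two vertices and
`P2` = two-colourable or at most four vertices; both are irreducible. -/

set_option autoImplicit false

namespace Q229.UF

/-- Classes of graphs on `Fin n`. -/
abbrev Cls := (n : ℕ) → SimpleGraph (Fin n) → Prop

/-- Closed under (not necessarily induced) subgraphs. -/
def Her (A : Cls) : Prop :=
  ∀ (a b : ℕ) (G : SimpleGraph (Fin a)) (H : SimpleGraph (Fin b)) (f : H →g G),
    Function.Injective f → A a G → A b H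

/-- A copy of the graph lies in the class. -/
def On (A : Cls) {V : Type} (X : SimpleGraph V) : Prop :=
  ∃ (r : ℕ) (K : SimpleGraph (Fin r)), A r K ∧ Nonempty (X ≃g K)

/-- The product of two classes. -/
def Mul (A B : Cls) (n : ℕ) (G : SimpleGraph (Fin n)) : Prop :=
  ∃ S : Set (Fin n), On A (G.induce S) ∧ On B (G.induce Sᶜ)

theorem on_of_hom {A : Cls} (hA : Her A) {V : Type} [Finite V] (X : SimpleGraph V)
    {r : ℕ} (K : SimpleGraph (Fin r)) (hK : A r K) (f : X →g K)
    (hf : Function.Injective f) : On A X := by
  classical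
  let e := Finite.equivFin V
  let K' : SimpleGraph (Fin (Nat.card V)) := X.comap e.symm
  have iso : K' ≃g X := ⟨e.symm, by intro a b; rfl⟩
  refine ⟨Nat.card V, K', ?_, ⟨iso.symm⟩⟩
  exact hA r _ K K' (f.comp iso.toHom) (hf.comp iso.injective) hK

theorem on_hom {A : Cls} (hA : Her A) {V : Type} (X : SimpleGraph V) (hX : On A X)
    {b : ℕ} (H : SimpleGraph (Fin b)) (f : H →g X) (hf : Function.Injective f) : A b H := by
  obtain ⟨r, K, hK, ⟨e⟩⟩ := hX
  exact hA r b K H (e.toHom.comp f) (e.injective.comp hf) hK

/-- Edgeless, or at most two vertices. -/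
def P1 : Cls := fun n G => G = ⊥ ∨ n ≤ 2

/-- Two-colourable, or at most four vertices. -/
def P2 : Cls := fun n G => G.Colorable 2 ∨ n ≤ 4

theorem her1 : Her P1 := by
  intro a b G H f hf h
  rcases h with h | h
  · left
    ext u v
    simp only [SimpleGraph.bot_adj, iff_false]
    intro huv
    have := f.map_adj huv
    subst h
    exact this
  · right
    have := Fintype.card_le_of_injective f hf
    simp at this
    omega

theorem her2 : Her P2 := by
  intro a b G H f hf h
  rcases h with h | h
  · left
    exact SimpleGraph.Colorable.of_hom f h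
  · right
    have := Fintype.card_le_of_injective f hf
    simp at this
    omega

theorem on1 {V : Type} [Finite V] (X : SimpleGraph V) :
    On P1 X ↔ (X = ⊥ ∨ Nat.card V ≤ 2) := by
  constructor
  · rintro ⟨r, K, hK, ⟨e⟩⟩
    rcases hK with hK | hK
    · left
      ext u v
      simp only [SimpleGraph.bot_adj, iff_false]
      intro huv
      have := (e.map_adj_iff).2 huv
      subst hK
      exact this
    · right
      have := Nat.card_congr e.toEquiv
      simp at this
      omega
  · intro h
    let e := Finite.equivFin V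
    let K' : SimpleGraph (Fin (Nat.card V)) := X.comap e.symm
    have iso : K' ≃g X := ⟨e.symm, by intro a b; rfl⟩
    refine ⟨Nat.card V, K', ?_, ⟨iso.symm⟩⟩
    rcases h with h | h
    · left
      ext u v
      simp only [K', SimpleGraph.comap_adj, h, SimpleGraph.bot_adj]
    · right
      exact h

theorem on2 {V : Type} [Finite V] (X : SimpleGraph V) :
    On P2 X ↔ (X.Colorable 2 ∨ Nat.card V ≤ 4) := by
  constructor
  · rintro ⟨r, K, hK, ⟨e⟩⟩
    rcases hK with hK | hK
    · left
      exact SimpleGraph.Colorable.of_hom e.toHom hK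
    · right
      have := Nat.card_congr e.toEquiv
      simp at this
      omega
  · intro h
    let e := Finite.equivFin V
    let K' : SimpleGraph (Fin (Nat.card V)) := X.comap e.symm
    have iso : K' ≃g X := ⟨e.symm, by intro a b; rfl⟩
    refine ⟨Nat.card V, K', ?_, ⟨iso.symm⟩⟩
    rcases h with h | h
    · left
      exact SimpleGraph.Colorable.of_hom iso.toHom h
    · right
      exact h

theorem mul_symm (A B : Cls) (n : ℕ) (G : SimpleGraph (Fin n)) (h : Mul A B n G) :
    Mul B A n G := by
  obtain ⟨S, h1, h2⟩ := h
  refine ⟨Sᶜ, h2, ?_⟩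
  rw [compl_compl]
  exact h1

/-- A graph from two injective homomorphisms of its two halves. -/
theorem mul_intro {A B : Cls} (hA : Her A) (hB : Her B) {n : ℕ} (G : SimpleGraph (Fin n))
    (S : Set (Fin n)) {a b : ℕ} (K : SimpleGraph (Fin a)) (L : SimpleGraph (Fin b))
    (hK : A a K) (hL : B b L) (f : G.induce S →g K) (g : G.induce Sᶜ →g L)
    (hf : Function.Injective f) (hg : Function.Injective g) : Mul A B n G :=
  ⟨S, on_of_hom hA _ K hK f hf, on_of_hom hB _ L hL g hg⟩

/-- The edgeless graph on `n` vertices in a product: one factor has an edgeless graph on `k`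
vertices when `n` is at least `2k - 1`. -/
theorem bot_split {A B : Cls} (hA : Her A) (hB : Her B) {n k : ℕ} (hn : 2 * k ≤ n + 1)
    (h : Mul A B n ⊥) : A k ⊥ ∨ B k ⊥ := by
  classical
  obtain ⟨S, h1, h2⟩ := h
  have hc : Nat.card S + Nat.card (Sᶜ : Set (Fin n)) = n := by
    have := Set.ncard_add_ncard_compl S
    rw [Nat.card_coe_set_eq, Nat.card_coe_set_eq, this]
    simp
  have key : ∀ (C : Cls) (T : Set (Fin n)), Her C → On C ((⊥ : SimpleGraph (Fin n)).induce T) →
      k ≤ Nat.card T → C k ⊥ := by
    intro C T hC hT hk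
    let e := Finite.equivFin T
    refine on_hom hC _ hT ⊥ ⟨fun i => e.symm (Fin.castLE hk i), ?_⟩ ?_
    · intro a b hab
      exact absurd hab (by simp)
    · intro a b hab
      have : e.symm (Fin.castLE hk a) = e.symm (Fin.castLE hk b) := hab
      have := e.symm.injective this
      exact Fin.castLE_injective hk this
  by_cases hk : k ≤ Nat.card S
  · left
    exact key A S hA h1 hk
  · right
    exact key B Sᶜ hB h2 (by omega)

end Q229.UF
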