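import Pool.Agent.Q229.UF.Core

set_option autoImplicit false

namespace Q229.UF

/-- The join of two graphs. -/
def J {a b : ℕ} (K : SimpleGraph (Fin a)) (L : SimpleGraph (Fin b)) :
    SimpleGraph (Fin a ⊕ Fin b) where
  Adj x y := match x, y with
    | Sum.inl i, Sum.inl j => K.Adj i j
    | Sum.inr i, Sum.inr j => L.Adj i j
    | _, _ => True
  symm := ⟨by
    rintro (i | i) (j | j) h
    · exact SimpleGraph.Adj.symm (G := K) h
    · trivial
    · trivial
    · exact SimpleGraph.Adj.symm (G := L) h⟩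
  loopless := ⟨by
    rintro (i | i) h
    · exact K.loopless.irrefl i h
    · exact L.loopless.irrefl i h⟩

/-- The join on `Fin (a + b)`. -/
def JF {a b : ℕ} (K : SimpleGraph (Fin a)) (L : SimpleGraph (Fin b)) :
    SimpleGraph (Fin (a + b)) := (J K L).comap finSumFinEquiv.symm

theorem join_mul {A B : Cls} (hA : Her A) (hB : Her B) {a b : ℕ} (K : SimpleGraph (Fin a))
    (L : SimpleGraph (Fin b)) (hK : A a K) (hL : B b L) : Mul A B (a + b) (JF K L) := by
  classical
  let S : Set (Fin (a + b)) := {v | ∃ i, finSumFinEquiv.symm v = Sum.inl i}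
  have hS : ∀ v : S, ∃ i, finSumFinEquiv.symm v.1 = Sum.inl i := fun v => v.2
  have hT : ∀ v : (Sᶜ : Set (Fin (a + b))), ∃ j, finSumFinEquiv.symm v.1 = Sum.inr j := by
    rintro ⟨v, hv⟩
    rcases h : finSumFinEquiv.symm v with i | j
    · exact absurd ⟨i, h⟩ hv
    · exact ⟨j, rfl⟩
  choose f hf using hS
  choose g hg using hT
  refine mul_intro hA hB (JF K L) S K L hK hL ⟨f, ?_⟩ ⟨g, ?_⟩ ?_ ?_
  · intro u v huv
    have h : (J K L).Adj (finSumFinEquiv.symm u.1) (finSumFinEquiv.symm v.1) := huv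
    rw [hf u, hf v] at h
    exact h
  · intro u v huv
    have h : (J K L).Adj (finSumFinEquiv.symm u.1) (finSumFinEquiv.symm v.1) := huv
    rw [hg u, hg v] at h
    exact h
  · intro u v huv
    have h : f u = f v := huv
    have h2 : finSumFinEquiv.symm u.1 = finSumFinEquiv.symm v.1 := by rw [hf u, hf v, h]
    exact Subtype.ext (finSumFinEquiv.symm.injective h2)
  · intro u v huv
    have h : g u = g v := huv
    have h2 : finSumFinEquiv.symm u.1 = finSumFinEquiv.symm v.1 := by rw [hg u, hg v, h]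
    exact Subtype.ext (finSumFinEquiv.symm.injective h2)

theorem JF_adj {a b : ℕ} (K : SimpleGraph (Fin a)) (L : SimpleGraph (Fin b))
    (x y : Fin a ⊕ Fin b) (h : (J K L).Adj x y) :
    (JF K L).Adj (finSumFinEquiv x) (finSumFinEquiv y) := by
  simp only [JF, SimpleGraph.comap_adj, Equiv.symm_apply_apply]
  exact h

theorem no_triangle {V : Type} (X : SimpleGraph V) (h : X.Colorable 2) (x y z : V)
    (h1 : X.Adj x y) (h2 : X.Adj y z) (h3 : X.Adj x z) : False := by
  obtain ⟨C⟩ := h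
  have a1 := C.valid h1
  have a2 := C.valid h2
  have a3 := C.valid h3
  have b1 : (C x).1 ≠ (C y).1 := fun h => a1 (Fin.ext h)
  have b2 : (C y).1 ≠ (C z).1 := fun h => a2 (Fin.ext h)
  have b3 : (C x).1 ≠ (C z).1 := fun h => a3 (Fin.ext h)
  have c1 := (C x).2
  have c2 := (C y).2
  have c3 := (C z).2
  omega

theorem no_tri_join {a b : ℕ} (K : SimpleGraph (Fin a)) (L : SimpleGraph (Fin b))
    (hab : 4 < a + b) (h : P2 (a + b) (JF K L)) (x y z : Fin a ⊕ Fin b)
    (h1 : (J K L).Adj x y) (h2 : (J K L).Adj y z) (h3 : (J K L).Adj x z) : False := by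
  rcases h with h | h
  · exact no_triangle _ h _ _ _ (JF_adj K L x y h1) (JF_adj K L y z h2) (JF_adj K L x z h3)
  · omega

theorem core1 (A B : Cls) (hA : Her A) (hB : Her B) (B1 : B 1 ⊥) (A3 : A 3 ⊥)
    (h : ∀ n G, P1 n G ↔ Mul A B n G) : False := by
  have h4 := (h _ _).2 (join_mul hA hB _ _ A3 B1)
  rcases h4 with h4 | h4
  · have := JF_adj (⊥ : SimpleGraph (Fin 3)) (⊥ : SimpleGraph (Fin 1)) (Sum.inl 0) (Sum.inr 0)
      trivial
    rw [h4] at this
    exact this
  · omega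

theorem irr1 (A B : Cls) (hA : Her A) (hB : Her B) (A1 : A 1 ⊥) (B1 : B 1 ⊥)
    (h : ∀ n G, P1 n G ↔ Mul A B n G) : False := by
  have h5 : Mul A B 5 ⊥ := (h 5 ⊥).1 (Or.inl rfl)
  rcases bot_split hA hB (k := 3) (by norm_num) h5 with h3 | h3
  · exact core1 A B hA hB B1 h3 h
  · exact core1 B A hB hA A1 h3 (fun n G =>
      (h n G).trans ⟨mul_symm A B n G, mul_symm B A n G⟩)

/-- One edge `0-1` on four vertices. -/
def E4 : SimpleGraph (Fin 4) where
  Adj a b := (a = 0 ∧ b = 1) ∨ (a = 1 ∧ b = 0)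
  symm := ⟨by rintro a b (⟨h1, h2⟩ | ⟨h1, h2⟩) <;> simp [h1, h2]⟩
  loopless := ⟨by rintro a (⟨h1, h2⟩ | ⟨h1, h2⟩) <;> simp_all⟩

/-- Two disjoint edges `0-1`, `2-3` on six vertices. -/
def G6 : SimpleGraph (Fin 6) where
  Adj a b := (a = 0 ∧ b = 1) ∨ (a = 1 ∧ b = 0) ∨ (a = 2 ∧ b = 3) ∨ (a = 3 ∧ b = 2)
  symm := ⟨by rintro a b (⟨h1, h2⟩ | ⟨h1, h2⟩ | ⟨h1, h2⟩ | ⟨h1, h2⟩) <;> simp [h1, h2]⟩
  loopless := ⟨by rintro a (⟨h1, h2⟩ | ⟨h1, h2⟩ | ⟨h1, h2⟩ | ⟨h1, h2⟩) <;> simp_all⟩

theorem G6_col : G6.Colorable 2 := by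
  refine ⟨SimpleGraph.Coloring.mk (fun v : Fin 6 => if v = 0 ∨ v = 2 then (0 : Fin 2) else 1) ?_⟩
  rintro a b (⟨h1, h2⟩ | ⟨h1, h2⟩ | ⟨h1, h2⟩ | ⟨h1, h2⟩) <;> subst h1 <;> subst h2 <;> decide

theorem core2 (A B : Cls) (hA : Her A) (hB : Her B) (B1 : B 1 ⊥) (A3 : A 3 ⊥)
    (h : ∀ n G, P2 n G ↔ Mul A B n G) : False := by
  classical
  -- no member of `B` has an edge
  have s2 : ∀ (r : ℕ) (K : SimpleGraph (Fin r)), B r K → ∀ u v, ¬ K.Adj u v := by
    intro r K hK u v huv
    have hne := huv.ne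
    have B2 : B 2 ⊤ := by
      refine hB r 2 K ⊤ ⟨![u, v], ?_⟩ ?_ hK
      · intro a b hab
        fin_cases a <;> fin_cases b <;> simp_all [huv.symm]
      · intro a b hab
        fin_cases a <;> fin_cases b <;> simp_all
    have := (h _ _).2 (join_mul hA hB _ _ A3 B2)
    exact no_tri_join _ _ (by norm_num) this (Sum.inl 0) (Sum.inr 0) (Sum.inr 1) trivial
      (by simp [J]) trivial
  -- a triangle in `A`
  have s3 : A 3 ⊤ := by
    obtain ⟨S, h1, h2⟩ := (h 4 ⊤).1 (Or.inr le_rfl)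
    obtain ⟨r, K, hK, ⟨e⟩⟩ := h2
    have hsub : ∀ x y : (Sᶜ : Set (Fin 4)), x = y := by
      intro x y
      by_contra hne
      have : ((⊤ : SimpleGraph (Fin 4)).induce Sᶜ).Adj x y := by
        simp only [SimpleGraph.comap_adj, SimpleGraph.top_adj]
        intro hxy
        exact hne (Subtype.ext hxy)
      exact s2 r K hK _ _ ((e.map_adj_iff).2 this)
    have hc : Nat.card S + Nat.card (Sᶜ : Set (Fin 4)) = 4 := by
      have := Set.ncard_add_ncard_compl S
      rw [Nat.card_coe_set_eq, Nat.card_coe_set_eq, this]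
      simp
    have hc2 : Nat.card (Sᶜ : Set (Fin 4)) ≤ 1 := by
      rw [Finite.card_le_one_iff_subsingleton]
      exact ⟨hsub⟩
    have hk : 3 ≤ Nat.card S := by omega
    let e' := Finite.equivFin S
    refine on_hom hA _ h1 ⊤ ⟨fun i => e'.symm (Fin.castLE hk i), ?_⟩ ?_
    · intro a b hab
      simp only [SimpleGraph.comap_adj, SimpleGraph.top_adj]
      intro hxy
      have h3 : e'.symm (Fin.castLE hk a) = e'.symm (Fin.castLE hk b) := Subtype.ext hxy
      exact hab.ne (Fin.castLE_injective hk (e'.symm.injective h3))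
    · intro a b hab
      have h3 : e'.symm (Fin.castLE hk a) = e'.symm (Fin.castLE hk b) := hab
      exact Fin.castLE_injective hk (e'.symm.injective h3)
  -- the members of `B` have at most one vertex
  have s4 : ∀ (r : ℕ) (K : SimpleGraph (Fin r)), B r K → r ≤ 1 := by
    intro r K hK
    by_contra hr
    have hr2 : 2 ≤ r := by omega
    have B2 : B 2 ⊥ := by
      refine hB r 2 K ⊥ ⟨fun i => Fin.castLE hr2 i, ?_⟩ (Fin.castLE_injective hr2) hK
      intro a b hab
      exact absurd hab (by simp)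
    have := (h _ _).2 (join_mul hA hB _ _ s3 B2)
    exact no_tri_join _ _ (by norm_num) this (Sum.inl 0) (Sum.inl 1) (Sum.inl 2)
      (by simp [J]) (by simp [J]) (by simp [J])
  -- an edge with two more vertices in `A`
  have s5 : A 4 E4 := by
    obtain ⟨S, h1, h2⟩ := (h 6 G6).1 (Or.inl G6_col)
    obtain ⟨r, K, hK, ⟨e⟩⟩ := h2
    have hr := s4 r K hK
    have hc2 : Nat.card (Sᶜ : Set (Fin 6)) ≤ 1 := by
      have := Nat.card_congr e.toEquiv
      simp only [Nat.card_eq_fintype_card, Fintype.card_fin] at this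
      rw [Nat.card_eq_fintype_card]
      omega
    have hsub : Subsingleton (Sᶜ : Set (Fin 6)) := by
      rwa [Finite.card_le_one_iff_subsingleton] at hc2
    have hv : ∃ v, ∀ x, x ≠ v → x ∈ S := by
      by_cases hne : (Sᶜ : Set (Fin 6)).Nonempty
      · obtain ⟨v, hv⟩ := hne
        refine ⟨v, fun x hx => ?_⟩
        by_contra hxS
        exact hx (congrArg Subtype.val (Subsingleton.elim (⟨x, hxS⟩ : (Sᶜ : Set (Fin 6))) ⟨v, hv⟩))
      · refine ⟨0, fun x _ => ?_⟩
        by_contra hxS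
        exact hne ⟨x, hxS⟩
    obtain ⟨v, hv⟩ := hv
    have key : ∀ t : Fin 4 → Fin 6, Function.Injective t → (∀ i, t i ≠ v) →
        G6.Adj (t 0) (t 1) → A 4 E4 := by
      intro t ht htv h01
      refine on_hom hA _ h1 E4 ⟨fun i => ⟨t i, hv _ (htv i)⟩, ?_⟩ ?_
      · rintro a b (⟨ha, hb⟩ | ⟨ha, hb⟩)
        · subst ha; subst hb
          exact h01
        · subst ha; subst hb
          exact h01.symm
      · intro a b hab
        exact ht (congrArg Subtype.val hab)
    fin_cases v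
    · exact key ![2, 3, 4, 5] (by decide) (by decide) (by simp [G6])
    · exact key ![2, 3, 4, 5] (by decide) (by decide) (by simp [G6])
    · exact key ![0, 1, 4, 5] (by decide) (by decide) (by simp [G6])
    · exact key ![0, 1, 4, 5] (by decide) (by decide) (by simp [G6])
    · exact key ![0, 1, 2, 3] (by decide) (by decide) (by simp [G6])
    · exact key ![0, 1, 2, 3] (by decide) (by decide) (by simp [G6])
  have := (h _ _).2 (join_mul hA hB _ _ s5 B1)
  exact no_tri_join _ _ (by norm_num) this (Sum.inl 0) (Sum.inl 1) (Sum.inr 0)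
    (by simp [J, E4]) trivial trivial

theorem irr2 (A B : Cls) (hA : Her A) (hB : Her B) (A1 : A 1 ⊥) (B1 : B 1 ⊥)
    (h : ∀ n G, P2 n G ↔ Mul A B n G) : False := by
  have h5 : Mul A B 5 ⊥ := by
    refine (h 5 ⊥).1 (Or.inl ?_)
    refine ⟨SimpleGraph.Coloring.mk (fun _ => (0 : Fin 2)) ?_⟩
    intro a b hab
    exact absurd hab (by simp)
  rcases bot_split hA hB (k := 3) (by norm_num) h5 with h3 | h3
  · exact core2 A B hA hB B1 h3 h
  · exact core2 B A hB hA A1 h3 (fun n G =>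
      (h n G).trans ⟨mul_symm A B n G, mul_symm B A n G⟩)

end Q229.UF
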