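import Pool.Agent.Q229.UF.Irr

set_option autoImplicit false

namespace Q229.UF

/-- Colourings whose classes lie in the given classes. -/
def Prd {m : ℕ} (Ps : Fin m → Cls) (n : ℕ) (G : SimpleGraph (Fin n)) : Prop :=
  ∃ c : Fin n → Fin m, ∀ i : Fin m, On (Ps i) (G.induce {v | c v = i})

theorem split4 {n : ℕ} (T : Finset (Fin n)) (h : T.card ≤ 4) :
    ∃ U ⊆ T, U.card ≤ 2 ∧ (T \ U).card ≤ 2 := by
  obtain ⟨U, hU, hc⟩ := Finset.exists_subset_card_eq (s := T) (n := min T.card 2) (min_le_left _ _)
  refine ⟨U, hU, by omega, ?_⟩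
  rw [Finset.card_sdiff_of_subset hU]
  omega

theorem ncard_le {n : ℕ} (S : Set (Fin n)) [DecidablePred (· ∈ S)] :
    Nat.card S = (Finset.univ.filter (· ∈ S)).card := by
  rw [Nat.card_eq_fintype_card, Fintype.card_subtype]

theorem prod_fwd {n : ℕ} (G : SimpleGraph (Fin n)) (h : Prd (fun _ : Fin 3 => P1) n G) :
    Prd ![P1, P2] n G := by
  classical
  obtain ⟨c, hc⟩ := h
  have hc' : ∀ i, G.induce {v | c v = i} = ⊥ ∨ Nat.card {v | c v = i} ≤ 2 := fun i =>
    (on1 _).1 (hc i)
  -- `k` is left alone; the other two classes have the same label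
  have hk : ∃ k i j : Fin 3, i ≠ j ∧ (∀ x, x = k ∨ x = i ∨ x = j) ∧ i ≠ k ∧ j ≠ k ∧
      ((G.induce {v | c v = i} = ⊥ ∧ G.induce {v | c v = j} = ⊥) ∨
        (Nat.card {v | c v = i} ≤ 2 ∧ Nat.card {v | c v = j} ≤ 2)) := by
    rcases hc' 0 with h0 | h0 <;> rcases hc' 1 with h1 | h1 <;> rcases hc' 2 with h2 | h2
    · exact ⟨2, 0, 1, by decide, by decide, by decide, by decide, Or.inl ⟨h0, h1⟩⟩
    · exact ⟨2, 0, 1, by decide, by decide, by decide, by decide, Or.inl ⟨h0, h1⟩⟩
    · exact ⟨1, 0, 2, by decide, by decide, by decide, by decide, Or.inl ⟨h0, h2⟩⟩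
    · exact ⟨0, 1, 2, by decide, by decide, by decide, by decide, Or.inr ⟨h1, h2⟩⟩
    · exact ⟨0, 1, 2, by decide, by decide, by decide, by decide, Or.inl ⟨h1, h2⟩⟩
    · exact ⟨1, 0, 2, by decide, by decide, by decide, by decide, Or.inr ⟨h0, h2⟩⟩
    · exact ⟨2, 0, 1, by decide, by decide, by decide, by decide, Or.inr ⟨h0, h1⟩⟩
    · exact ⟨2, 0, 1, by decide, by decide, by decide, by decide, Or.inr ⟨h0, h1⟩⟩
  obtain ⟨k, i, j, hij, hall, hik, hjk, hor⟩ := hk
  refine ⟨fun v => if c v = k then 0 else 1, ?_⟩
  have e0 : {v : Fin n | (if c v = k then (0 : Fin 2) else 1) = 0} = {v | c v = k} := by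
    ext v
    simp
  have e1 : {v : Fin n | (if c v = k then (0 : Fin 2) else 1) = 1} =
      {v | c v = i} ∪ {v | c v = j} := by
    ext v
    rcases hall (c v) with h | h | h <;> simp [h, hik, hjk, hij, hij.symm, hik.symm, hjk.symm]
  intro t
  fin_cases t
  · show On P1 (G.induce {v : Fin n | (if c v = k then (0 : Fin 2) else 1) = 0})
    rw [e0]
    exact hc k
  · show On P2 (G.induce {v : Fin n | (if c v = k then (0 : Fin 2) else 1) = 1})
    rw [e1, on2]
    rcases hor with ⟨hi, hj⟩ | ⟨hi, hj⟩
    · left
      refine ⟨SimpleGraph.Coloring.mk (fun v => if c v.1 = i then (0 : Fin 2) else 1) ?_⟩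
      rintro ⟨u, hu⟩ ⟨v, hv⟩ huv
      have huv' : G.Adj u v := huv
      have no : ∀ l, G.induce {v | c v = l} = ⊥ → c u = l → c v = l → False := by
        intro l hl h1 h2
        have : (G.induce {v | c v = l}).Adj ⟨u, h1⟩ ⟨v, h2⟩ := huv'
        rw [hl] at this
        exact this
      rcases hu with hu | hu <;> rcases hv with hv | hv
      · exact (no i hi hu hv).elim
      · have hu' : c u = i := hu
        have hv' : c v = j := hv
        simp [hu', hv', hij.symm]
      · have hu' : c u = j := hu
        have hv' : c v = i := hv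
        simp [hu', hv', hij.symm]
      · exact (no j hj hu hv).elim
    · right
      rw [Nat.card_coe_set_eq] at hi hj ⊢
      exact (Set.ncard_union_le _ _).trans (by omega)

theorem prod_bwd {n : ℕ} (G : SimpleGraph (Fin n)) (h : Prd ![P1, P2] n G) :
    Prd (fun _ : Fin 3 => P1) n G := by
  classical
  obtain ⟨c, hc⟩ := h
  have h0 : On P1 (G.induce {v | c v = 0}) := hc 0
  have h1 : On P2 (G.induce {v | c v = 1}) := hc 1
  rw [on2] at h1
  rcases h1 with ⟨⟨C⟩⟩ | h1
  · let d : Fin n → Fin 3 := fun v =>
      if hv : c v = 1 then (if C ⟨v, hv⟩ = 0 then 1 else 2) else 0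
    have key : ∀ l : Fin 3, l ≠ 0 → G.induce {v | d v = l} = ⊥ := by
      intro l hl
      ext u v
      simp only [SimpleGraph.bot_adj, iff_false]
      intro huv
      have huv' : G.Adj u.1 v.1 := huv
      have hu : d u.1 = l := u.2
      have hv : d v.1 = l := v.2
      by_cases hu1 : c u.1 = 1
      · by_cases hv1 : c v.1 = 1
        · have hadj : (G.induce {v | c v = 1}).Adj ⟨u.1, hu1⟩ ⟨v.1, hv1⟩ := huv'
          have hne := C.valid hadj
          simp only [d, hu1, hv1, dif_pos] at hu hv
          have b1 : (C ⟨u.1, hu1⟩).1 ≠ (C ⟨v.1, hv1⟩).1 := fun h => hne (Fin.ext h)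
          have c1 := (C ⟨u.1, hu1⟩).2
          have c2 := (C ⟨v.1, hv1⟩).2
          by_cases q1 : C ⟨u.1, hu1⟩ = 0 <;> by_cases q2 : C ⟨v.1, hv1⟩ = 0
          · exact hne (q1.trans q2.symm)
          · rw [if_pos q1] at hu
            rw [if_neg q2] at hv
            rw [← hv] at hu
            exact absurd hu (by decide)
          · rw [if_neg q1] at hu
            rw [if_pos q2] at hv
            rw [← hv] at hu
            exact absurd hu (by decide)
          · have r1 : (C ⟨u.1, hu1⟩).1 ≠ 0 := fun h => q1 (Fin.ext h)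
            have r2 : (C ⟨v.1, hv1⟩).1 ≠ 0 := fun h => q2 (Fin.ext h)
            omega
        · simp only [d, hv1] at hv
          exact hl hv.symm
      · simp only [d, hu1] at hu
        exact hl hu.symm
    refine ⟨d, ?_⟩
    intro l
    show On P1 (G.induce {v | d v = l})
    by_cases hl : l = 0
    · subst hl
      have : {v | d v = 0} = {v | c v = 0} := by
        ext v
        simp only [Set.mem_setOf_eq, d]
        by_cases hv : c v = 1
        · rw [dif_pos hv, hv]
          by_cases q : C ⟨v, hv⟩ = 0 <;> simp [q]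
        · have : c v = 0 := by
            have := (c v).2
            apply Fin.ext
            have h2 : (c v).1 ≠ 1 := fun h => hv (Fin.ext h)
            show (c v).1 = 0
            omega
          simp [this]
      rw [this]
      exact h0
    · rw [on1]
      left
      exact key l hl
  · have hT : (Finset.univ.filter (fun v => c v = 1)).card ≤ 4 := by
      have := ncard_le {v | c v = 1}
      simp only [Set.mem_setOf_eq] at this
      rw [← this]
      exact h1
    obtain ⟨U, hU, hU2, hU3⟩ := split4 _ hT
    let d : Fin n → Fin 3 := fun v => if c v = 1 then (if v ∈ U then 1 else 2) else 0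
    refine ⟨d, ?_⟩
    have hd1 : ∀ v, d v = 1 ↔ v ∈ U := by
      intro v
      by_cases hv : c v = 1
      · by_cases q : v ∈ U <;> simp [d, hv, q]
      · have : v ∉ U := fun h => hv (by simpa using hU h)
        simp [d, hv, this]
    have hd2 : ∀ v, d v = 2 → v ∈ (Finset.univ.filter (fun v => c v = 1)) \ U := by
      intro v hv'
      by_cases hv : c v = 1
      · by_cases q : v ∈ U
        · simp [d, hv, q] at hv'
        · simp [hv, q]
      · simp [d, hv] at hv'
    intro l
    show On P1 (G.induce {v | d v = l})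
    fin_cases l
    · have : {v | d v = 0} = {v | c v = 0} := by
        ext v
        simp only [Set.mem_setOf_eq, d]
        by_cases hv : c v = 1
        · rw [if_pos hv, hv]
          by_cases q : v ∈ U <;> simp [q]
        · have : c v = 0 := by
            have := (c v).2
            apply Fin.ext
            have h2 : (c v).1 ≠ 1 := fun h => hv (Fin.ext h)
            show (c v).1 = 0
            omega
          simp [this]
      show On P1 (G.induce {v | d v = 0})
      rw [this]
      exact h0
    · show On P1 (G.induce {v | d v = 1})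
      rw [on1]
      right
      rw [ncard_le]
      refine le_trans (Finset.card_le_card ?_) hU2
      intro v hv
      simp only [Set.mem_setOf_eq, Finset.mem_filter, Finset.mem_univ, true_and] at hv
      exact (hd1 v).1 hv
    · show On P1 (G.induce {v | d v = 2})
      rw [on1]
      right
      rw [ncard_le]
      refine le_trans (Finset.card_le_card ?_) hU3
      intro v hv
      simp only [Set.mem_setOf_eq, Finset.mem_filter, Finset.mem_univ, true_and] at hv
      exact hd2 v hv

theorem P1_one : P1 1 ⊥ := Or.inl rfl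

theorem P2_one : P2 1 ⊥ := Or.inr (by norm_num)

end Q229.UF
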